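import Mathlib

/-! MP_3fccc5_lc, local search by exchanges of bounded size: the first part of the step. -/

open Finset

namespace Pool.Agent.Helper12.LS

variable {E : Type*} [DecidableEq E]

/-- Extension of an independent set inside another one, to exactly its size. -/
theorem ext_exact (N : Matroid E) {I J : Finset E} (hI : N.Indep (I : Set E))
    (hJ : N.Indep (J : Set E)) (hIJ : I.card ≤ J.card) :
    ∃ K ⊆ J \ I, N.Indep ((I ∪ K : Finset E) : Set E) ∧ (I ∪ K).card = J.card := by
  obtain ⟨n, hn⟩ := Nat.exists_eq_add_of_le hIJ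
  clear hIJ
  induction n generalizing I with
  | zero => exact ⟨∅, by simp, by simpa using hI, by simpa using hn.symm⟩
  | succ n ih =>
    obtain ⟨e, heJ, heI, he⟩ := hI.augment_finset hJ (by omega)
    have hins : (insert e I).card = I.card + 1 := card_insert_of_notMem heI
    obtain ⟨K, hK, hind, hc⟩ := ih (I := insert e I) (by rwa [coe_insert]) (by omega)
    have hu : I ∪ insert e K = insert e I ∪ K := by
      ext x; simp
    refine ⟨insert e K, ?_, ?_, ?_⟩
    · intro x hx
      rcases mem_insert.mp hx with rfl | hx
      · exact mem_sdiff.mpr ⟨heJ, heI⟩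
      · have := mem_sdiff.mp (hK hx)
        exact mem_sdiff.mpr ⟨this.1, fun h => this.2 (mem_insert_of_mem h)⟩
    · rwa [hu]
    · rw [hu, hc]

/-- A large part of S - B that can be added to B. -/
theorem exists_V (N : Matroid E) {B S : Finset E} (hB : N.Indep (B : Set E))
    (hS : N.Indep (S : Set E)) :
    ∃ V ⊆ S \ B, N.Indep ((B ∪ V : Finset E) : Set E) ∧ S.card ≤ (B ∪ V).card := by
  by_cases h : S.card ≤ B.card
  · exact ⟨∅, by simp, by simpa using hB, by simpa using h⟩
  · obtain ⟨K, hK, hi, hc⟩ := ext_exact N hB hS (by omega)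
    exact ⟨K, hK, hi, hc.ge⟩

theorem setup {k : ℕ} (hk : 2 ≤ k) (M : Fin k → Matroid E) {B S : Finset E}
    (hB : ∀ i, (M i).Indep (B : Set E)) (hS : ∀ i, (M i).Indep (S : Set E))
    (hno : ∀ X ⊆ S \ B, X.card ≤ 2 → ∀ B' ⊆ B ∪ X, (∀ i, (M i).Indep (B' : Set E)) →
      B'.card ≤ B.card) :
    ∃ F Y : Fin k → Finset E,
      (∀ l m, l ≠ m → Disjoint (F l) (F m)) ∧ (∀ l m, l ≠ m → Disjoint (Y l) (Y m)) ∧
      (∀ l, F l ⊆ S \ B) ∧ (∀ l, Y l ⊆ B \ S) ∧ (∀ l, (Y l).card = (F l).card) ∧
      (∀ l, (M l).Indep ((B ∪ (univ.biUnion F \ F l) : Finset E) : Set E)) ∧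
      (∀ l, (M l).Indep (((B \ Y l) ∪ univ.biUnion F : Finset E) : Set E)) ∧
      2 * S.card ≤ k * B.card + (univ.biUnion F).card := by
  classical
  choose V hVS hVi hVc using fun l => exists_V (M l) (hB l) (hS l)
  set D : Fin k → Finset E := fun l => (S \ B) \ V l with hD
  set F : Fin k → Finset E := fun l =>
    (S \ B).filter (fun e => e ∈ D l ∧ ∀ m, e ∈ D m → m = l) with hF
  have hFS : ∀ l, F l ⊆ S \ B := fun l => filter_subset _ _
  have hFD : ∀ l e, e ∈ F l → e ∈ D l := fun l e he => (mem_filter.mp he).2.1
  have hFV : ∀ l m e, l ≠ m → e ∈ F m → e ∈ V l := by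
    intro l m e hlm he
    have h := mem_filter.mp he
    by_contra hV
    have : e ∈ D l := mem_sdiff.mpr ⟨h.1, hV⟩
    exact hlm (h.2.2 l this)
  have hFdisj : ∀ l m, l ≠ m → Disjoint (F l) (F m) := by
    intro l m hlm
    rw [disjoint_left]
    intro e hel hem
    have h1 := hFV l m e hlm hem
    exact (mem_sdiff.mp (hFD l e hel)).2 h1
  have hUV : ∀ l, univ.biUnion F \ F l ⊆ V l := by
    intro l e he
    obtain ⟨h1, h2⟩ := mem_sdiff.mp he
    obtain ⟨m, -, hm⟩ := mem_biUnion.mp h1
    have : l ≠ m := by rintro rfl; exact h2 hm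
    exact hFV l m e this hm
  -- the sets Y l
  have hVB : ∀ l, Disjoint B (V l) := by
    intro l
    rw [disjoint_left]
    intro e heB heV
    exact (mem_sdiff.mp (hVS l heV)).2 heB
  have hBV : ∀ l, (B ∪ V l).card = B.card + (V l).card := fun l =>
    card_union_of_disjoint (hVB l)
  have hVF : ∀ l, Disjoint (V l) (F l) := by
    intro l
    rw [disjoint_left]
    intro e heV heF
    exact (mem_sdiff.mp (hFD l e heF)).2 heV
  have hIS : ∀ l, (V l ∪ F l) ∪ (B ∩ S) ⊆ S := by
    intro l e he
    rcases mem_union.mp he with he | he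
    · rcases mem_union.mp he with he | he
      · exact (mem_sdiff.mp (hVS l he)).1
      · exact (mem_sdiff.mp (hFS l he)).1
    · exact (mem_inter.mp he).2
  have hIc : ∀ l, ((V l ∪ F l) ∪ (B ∩ S)).card = (V l).card + (F l).card + (B ∩ S).card := by
    intro l
    rw [card_union_of_disjoint, card_union_of_disjoint (hVF l)]
    rw [disjoint_left]
    intro e he heB
    have heB' := (mem_inter.mp heB).1
    rcases mem_union.mp he with he | he
    · exact (mem_sdiff.mp (hVS l he)).2 heB'
    · exact (mem_sdiff.mp (hFS l he)).2 heB'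
  have hext : ∀ l, ∃ K ⊆ (B ∪ V l) \ ((V l ∪ F l) ∪ (B ∩ S)),
      (M l).Indep ((((V l ∪ F l) ∪ (B ∩ S)) ∪ K : Finset E) : Set E) ∧
      (((V l ∪ F l) ∪ (B ∩ S)) ∪ K).card = (B ∪ V l).card := by
    intro l
    refine ext_exact (M l) ((hS l).subset (by exact_mod_cast hIS l)) (hVi l) ?_
    exact (card_le_card (hIS l)).trans (hVc l)
  choose K hK hKi hKc using hext
  have hKBS : ∀ l, K l ⊆ B \ S := by
    intro l e he
    have h := mem_sdiff.mp (hK l he)
    have hnI := h.2
    rcases mem_union.mp h.1 with hB' | hV'
    · refine mem_sdiff.mpr ⟨hB', fun hS' => hnI ?_⟩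
      exact mem_union_right _ (mem_inter.mpr ⟨hB', hS'⟩)
    · exact absurd (mem_union_left _ (mem_union_left _ hV')) hnI
  have hKcard : ∀ l, (K l).card + (F l).card = (B \ S).card := by
    intro l
    have h1 := hKc l
    have hdis : Disjoint ((V l ∪ F l) ∪ (B ∩ S)) (K l) := by
      rw [disjoint_left]
      intro e he heK
      exact (mem_sdiff.mp (hK l heK)).2 he
    rw [card_union_of_disjoint hdis, hIc, hBV] at h1
    have h2 : (B \ S).card + (B ∩ S).card = B.card := card_sdiff_add_card_inter B S
    omega
  set Y : Fin k → Finset E := fun l => (B \ S) \ K l with hY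
  have hYc : ∀ l, (Y l).card = (F l).card := by
    intro l
    have h1 := card_sdiff_add_card_eq_card (hKBS l)
    have h2 := hKcard l
    simp only [hY]
    omega
  have hYBS : ∀ l, Y l ⊆ B \ S := fun l => sdiff_subset
  have hBY : ∀ l, (B \ Y l) ⊆ (B ∩ S) ∪ K l := by
    intro l e he
    obtain ⟨h1, h2⟩ := mem_sdiff.mp he
    by_cases hs : e ∈ S
    · exact mem_union_left _ (mem_inter.mpr ⟨h1, hs⟩)
    · refine mem_union_right _ ?_
      by_contra hK'
      exact h2 (mem_sdiff.mpr ⟨mem_sdiff.mpr ⟨h1, hs⟩, hK'⟩)
  -- exchange of one y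
  have hex : ∀ l y, y ∈ Y l → ∃ e ∈ F l,
      (M l).Indep ((insert e ((B ∪ V l).erase y) : Finset E) : Set E) := by
    intro l y hy
    have hyB : y ∈ B := (mem_sdiff.mp (hYBS l hy)).1
    have hyS : y ∉ S := (mem_sdiff.mp (hYBS l hy)).2
    have hyK : y ∉ K l := (mem_sdiff.mp hy).2
    have hc1 : ((B ∪ V l).erase y).card < (((V l ∪ F l) ∪ (B ∩ S)) ∪ K l).card := by
      rw [hKc]
      exact card_erase_lt_of_mem (mem_union_left _ hyB)
    obtain ⟨e, he1, he2, he3⟩ := ((hVi l).subset (by
      exact_mod_cast erase_subset y (B ∪ V l))).augment_finset (hKi l) hc1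
    refine ⟨e, ?_, by rwa [coe_insert]⟩
    have hey : e ≠ y := by
      rintro rfl
      rcases mem_union.mp he1 with h | h
      · exact hyS (hIS l h)
      · exact hyK h
    have hen : e ∉ B ∪ V l := fun h => he2 (mem_erase.mpr ⟨hey, h⟩)
    rcases mem_union.mp he1 with h | h
    · rcases mem_union.mp h with h | h
      · rcases mem_union.mp h with h | h
        · exact absurd (mem_union_right _ h) hen
        · exact h
      · exact absurd (mem_union_left _ (mem_inter.mp h).1) hen
    · exact absurd (mem_union_left _ (mem_sdiff.mp (hKBS l h)).1) hen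
  have hYdisj : ∀ l m, l ≠ m → Disjoint (Y l) (Y m) := by
    intro l m hlm
    rw [disjoint_left]
    intro y hyl hym
    obtain ⟨e, heF, hei⟩ := hex l y hyl
    obtain ⟨e', heF', hei'⟩ := hex m y hym
    have heV : e ∈ V m := hFV m l e hlm.symm heF
    have heV' : e' ∈ V l := hFV l m e' hlm heF'
    have hyB : y ∈ B := (mem_sdiff.mp (hYBS l hyl)).1
    have heS := hFS l heF
    have heS' := hFS m heF'
    have heB : e ∉ B := (mem_sdiff.mp heS).2
    have heB' : e' ∉ B := (mem_sdiff.mp heS').2
    have hne : e ≠ e' := by
      rintro rfl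
      exact (disjoint_left.mp (hFdisj l m hlm)) heF heF'
    have hyV : ∀ l, y ∉ V l := fun l h => (mem_sdiff.mp (hVS l h)).2 hyB
    have h := hno {e, e'} (by
        intro x hx
        rcases mem_insert.mp hx with rfl | hx
        · exact heS
        · rw [mem_singleton.mp hx]; exact heS') (card_le_two)
        (insert e (insert e' (B.erase y))) (by
        intro x hx
        rcases mem_insert.mp hx with rfl | hx
        · exact mem_union_right _ (mem_insert_self _ _)
        · rcases mem_insert.mp hx with rfl | hx
          · exact mem_union_right _ (mem_insert_of_mem (mem_singleton_self _))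
          · exact mem_union_left _ (mem_of_mem_erase hx)) (by
        intro i
        by_cases hil : i = l
        · subst hil
          refine hei.subset ?_
          rw [coe_subset]
          intro x hx
          rcases mem_insert.mp hx with rfl | hx
          · exact mem_insert_self _ _
          · rcases mem_insert.mp hx with rfl | hx
            · refine mem_insert_of_mem (mem_erase.mpr ⟨?_, mem_union_right _ heV'⟩)
              rintro rfl; exact hyV _ heV'
            · refine mem_insert_of_mem (mem_erase.mpr ⟨(mem_erase.mp hx).1, ?_⟩)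
              exact mem_union_left _ (mem_erase.mp hx).2
        · by_cases him : i = m
          · subst him
            refine hei'.subset ?_
            rw [coe_subset]
            intro x hx
            rcases mem_insert.mp hx with rfl | hx
            · refine mem_insert_of_mem (mem_erase.mpr ⟨?_, mem_union_right _ heV⟩)
              rintro rfl; exact hyV _ heV
            · rcases mem_insert.mp hx with rfl | hx
              · exact mem_insert_self _ _
              · refine mem_insert_of_mem (mem_erase.mpr ⟨(mem_erase.mp hx).1, ?_⟩)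
                exact mem_union_left _ (mem_erase.mp hx).2
          · refine (hVi i).subset ?_
            rw [coe_subset]
            intro x hx
            rcases mem_insert.mp hx with rfl | hx
            · exact mem_union_right _ (hFV i l _ hil heF)
            · rcases mem_insert.mp hx with rfl | hx
              · exact mem_union_right _ (hFV i m _ him heF')
              · exact mem_union_left _ (mem_of_mem_erase hx))
    have h1 : e' ∉ B.erase y := fun h => heB' (mem_of_mem_erase h)
    have h2 : e ∉ insert e' (B.erase y) := by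
      intro h
      rcases mem_insert.mp h with h | h
      · exact hne h
      · exact heB (mem_of_mem_erase h)
    rw [card_insert_of_notMem h2, card_insert_of_notMem h1, card_erase_of_mem hyB] at h
    have : 0 < B.card := card_pos.mpr ⟨y, hyB⟩
    omega
  -- counting
  have hDc : ∀ l, (D l).card ≤ (B \ S).card := by
    intro l
    have h1 : (D l).card + (V l).card = (S \ B).card := card_sdiff_add_card_eq_card (hVS l)
    have h2 := hVc l
    rw [hBV] at h2
    have h3 : (B \ S).card + (B ∩ S).card = B.card := card_sdiff_add_card_inter B S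
    have h4 : (S \ B).card + (S ∩ B).card = S.card := card_sdiff_add_card_inter S B
    rw [inter_comm] at h4
    omega
  have hge1 : ∀ e ∈ S \ B, ∃ l, e ∈ D l := by
    intro e he
    by_contra hcon
    have hcon : ∀ l, e ∈ V l := by
      intro l
      by_contra h
      exact hcon ⟨l, mem_sdiff.mpr ⟨he, h⟩⟩
    have h := hno {e} (by simpa using he) (by simp) (insert e B) (by
      intro x hx
      rcases mem_insert.mp hx with rfl | hx
      · exact mem_union_right _ (mem_singleton_self _)
      · exact mem_union_left _ hx) (by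
      intro i
      refine (hVi i).subset ?_
      rw [coe_subset]
      intro x hx
      rcases mem_insert.mp hx with rfl | hx
      · exact mem_union_right _ (hcon i)
      · exact mem_union_left _ hx)
    rw [card_insert_of_notMem (mem_sdiff.mp he).2] at h
    omega
  have hpt : ∀ e ∈ S \ B, 2 ≤ (∑ l, if e ∈ D l then 1 else 0) +
      (if e ∈ univ.biUnion F then 1 else 0) := by
    intro e he
    obtain ⟨l, hl⟩ := hge1 e he
    by_cases hu : ∀ m, e ∈ D m → m = l
    · have heF : e ∈ univ.biUnion F :=
        mem_biUnion.mpr ⟨l, mem_univ _, mem_filter.mpr ⟨he, hl, hu⟩⟩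
      have h1 : (1 : ℕ) ≤ ∑ l, if e ∈ D l then 1 else 0 := by
        calc (1 : ℕ) = if e ∈ D l then 1 else 0 := by rw [if_pos hl]
          _ ≤ _ := single_le_sum (f := fun l => if e ∈ D l then 1 else 0)
              (fun _ _ => Nat.zero_le _) (mem_univ l)
      rw [if_pos heF]
      omega
    · have hu : ∃ m, e ∈ D m ∧ m ≠ l := by
        by_contra hcon
        exact hu (fun m hm => by
          by_contra hne
          exact hcon ⟨m, hm, hne⟩)
      obtain ⟨m, hm, hml⟩ := hu
      have h1 : (2 : ℕ) ≤ ∑ l, if e ∈ D l then 1 else 0 := by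
        calc (2 : ℕ) = ∑ l ∈ ({m, l} : Finset (Fin k)), if e ∈ D l then 1 else 0 := by
              rw [sum_pair hml, if_pos hm, if_pos hl]
          _ ≤ _ := sum_le_sum_of_subset (subset_univ _)
      omega
  have hsum : 2 * (S \ B).card ≤ k * (B \ S).card + (univ.biUnion F).card := by
    have h1 : ∑ e ∈ S \ B, 2 ≤ ∑ e ∈ S \ B, ((∑ l, if e ∈ D l then 1 else 0) +
        (if e ∈ univ.biUnion F then 1 else 0)) := sum_le_sum hpt
    rw [sum_const, smul_eq_mul, sum_add_distrib, sum_comm] at h1
    have h2 : ∑ l, ∑ e ∈ S \ B, (if e ∈ D l then 1 else 0) ≤ k * (B \ S).card := by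
      calc ∑ l, ∑ e ∈ S \ B, (if e ∈ D l then 1 else 0)
          = ∑ l, ((S \ B).filter (fun e => e ∈ D l)).card := by
            refine sum_congr rfl fun l _ => ?_
            rw [card_filter]
        _ ≤ ∑ l : Fin k, (B \ S).card := by
            refine sum_le_sum fun l _ => ?_
            refine (card_le_card ?_).trans (hDc l)
            intro e he
            exact (mem_filter.mp he).2
        _ = k * (B \ S).card := by simp
    have h3 : ∑ e ∈ S \ B, (if e ∈ univ.biUnion F then 1 else 0) ≤ (univ.biUnion F).card := by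
      rw [← card_filter]
      refine card_le_card ?_
      intro e he
      exact (mem_filter.mp he).2
    omega
  refine ⟨F, Y, hFdisj, hYdisj, hFS, hYBS, hYc, ?_, ?_, ?_⟩
  · intro l
    refine (hVi l).subset ?_
    rw [coe_subset]
    exact union_subset_union_right (hUV l)
  · intro l
    refine (hKi l).subset ?_
    rw [coe_subset]
    intro e he
    rcases mem_union.mp he with he | he
    · rcases mem_union.mp (hBY l he) with h | h
      · exact mem_union_left _ (mem_union_right _ h)
      · exact mem_union_right _ h
    · refine mem_union_left _ (mem_union_left _ ?_)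
      by_cases heF : e ∈ F l
      · exact mem_union_right _ heF
      · exact mem_union_left _ (hUV l (mem_sdiff.mpr ⟨he, heF⟩))
  · have h3 : (B \ S).card + (B ∩ S).card = B.card := card_sdiff_add_card_inter B S
    have h4 : (S \ B).card + (S ∩ B).card = S.card := card_sdiff_add_card_inter S B
    rw [inter_comm] at h4
    have h5 : 2 * (B ∩ S).card ≤ k * (B ∩ S).card := Nat.mul_le_mul_right _ hk
    have h6 : k * B.card = k * (B \ S).card + k * (B ∩ S).card := by
      rw [← Nat.mul_add, h3]
    omega

end Pool.Agent.Helper12.LS
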