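import Pool.Agent.Helper12.LS.Num
import Pool.Agent.Helper12.LS.Setup
import Pool.Agent.Helper69.LS2.Lift

/-! MP_3fccc5_lc: in k matroids, a common independent set without improving exchanges of bounded
size has at least 2/k - o(1) of the maximal size. -/

open Finset

namespace Pool.Agent.Helper12.LS

/-- If S is more than b times as large as B, then B has an improving exchange that adds at most
s elements of S. -/
def LSP (k : ℕ) (b : ℝ) (s : ℕ) : Prop :=
  ∀ (E : Type) [Fintype E] [DecidableEq E] (M : Fin k → Matroid E) (B S : Finset E),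
    (∀ i, (M i).Indep (B : Set E)) → (∀ i, (M i).Indep (S : Set E)) →
    b * (B.card : ℝ) < (S.card : ℝ) →
    ∃ X, X ⊆ S \ B ∧ X.card ≤ s ∧
      ∃ B', B' ⊆ B ∪ X ∧ (∀ i, (M i).Indep (B' : Set E)) ∧ B.card < B'.card

theorem LSP.mono {k : ℕ} {b b' : ℝ} {s : ℕ} (hb : b ≤ b') (h : LSP k b s) : LSP k b' s := by
  intro E _ _ M B S hB hS hlt
  refine h E M B S hB hS (lt_of_le_of_lt ?_ hlt)
  exact mul_le_mul_of_nonneg_right hb (Nat.cast_nonneg _)

theorem card_UF {E : Type} [DecidableEq E] {k : ℕ} {F Y : Fin k → Finset E}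
    (hFd : ∀ l m, l ≠ m → Disjoint (F l) (F m)) (hYd : ∀ l m, l ≠ m → Disjoint (Y l) (Y m))
    (hc : ∀ l, (Y l).card = (F l).card) :
    (univ.biUnion Y).card = (univ.biUnion F).card := by
  rw [card_biUnion (fun l _ m _ h => hFd l m h), card_biUnion (fun l _ m _ h => hYd l m h)]
  exact sum_congr rfl fun l _ => hc l

theorem base {k : ℕ} (hk : 2 ≤ k) : LSP k k 2 := by
  intro E _ _ M B S hB hS hlt
  by_contra hcon
  obtain ⟨F, Y, hFd, hYd, hFS, hYB, hc, -, -, hcount⟩ := setup hk M hB hS (by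
    intro X hX hXc B' hB' hi
    by_contra h
    exact hcon ⟨X, hX, hXc, B', hB', hi, by omega⟩)
  have h1 := card_UF hFd hYd hc
  have h2 : (univ.biUnion Y).card ≤ B.card := by
    refine card_le_card (biUnion_subset.mpr fun l _ => (hYB l).trans sdiff_subset)
  have h3 : 2 * S.card ≤ k * B.card + B.card := by omega
  have h4 : (2 : ℝ) * S.card ≤ k * B.card + B.card := by exact_mod_cast h3
  have hk' : (2 : ℝ) ≤ k := by exact_mod_cast hk
  have hB0 : (0 : ℝ) ≤ B.card := Nat.cast_nonneg _
  nlinarith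

theorem step {k : ℕ} (hk : 2 ≤ k) {b : ℝ} (hb : 1 ≤ b) {s : ℕ} (hs : 1 ≤ s) (h : LSP k b s) :
    LSP k ((b + k * (b - 1)) / (2 * b - 1)) ((2 * k + 1) * s) := by
  intro E _ _ M B S hB hS hlt
  by_contra hcon
  have h2s : 2 ≤ (2 * k + 1) * s := by nlinarith
  obtain ⟨F, Y, hFd, hYd, hFS, hYB, hc, hi1, hi2, hcount⟩ := setup hk M hB hS (by
    intro X hX hXc B' hB' hi
    by_contra h
    exact hcon ⟨X, hX, hXc.trans h2s, B', hB', hi, by omega⟩)
  have hcard := card_UF hFd hYd hc
  obtain ⟨UF, hUF⟩ : ∃ UF, UF = univ.biUnion F := ⟨_, rfl⟩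
  obtain ⟨UY, hUY⟩ : ∃ UY, UY = univ.biUnion Y := ⟨_, rfl⟩
  rw [← hUF] at hcard hi1 hi2 hcount
  rw [← hUY] at hcard
  have hUFS : UF ⊆ S \ B := hUF ▸ biUnion_subset.mpr fun l _ => hFS l
  have hUYB : UY ⊆ B \ S := hUY ▸ biUnion_subset.mpr fun l _ => hYB l
  have hYU : ∀ l, Y l ⊆ UY := fun l => hUY ▸ subset_biUnion_of_mem Y (mem_univ l)
  have hB1c : (B \ UY).card + UF.card = B.card := by
    rw [← hcard]
    exact card_sdiff_add_card_eq_card (hUYB.trans sdiff_subset)
  have hS1c : (S \ UF).card + UF.card = S.card :=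
    card_sdiff_add_card_eq_card (hUFS.trans sdiff_subset)
  have hFi : ∀ l, (M l).Indep (UF : Set E) := fun l =>
    (hS l).subset (coe_subset.mpr (hUFS.trans sdiff_subset))
  by_cases hcase : b * ((B \ UY).card : ℝ) < ((S \ UF).card : ℝ)
  · obtain ⟨X, hX, hXc, B'', hB'', hi'', hlt''⟩ := h E (fun l => (M l).contract (UF : Set E))
      (B \ UY) (S \ UF) (by
        intro l
        rw [(hFi l).contract_indep_iff]
        refine ⟨?_, ?_⟩
        · rw [disjoint_coe, disjoint_left]
          intro x hx hxF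
          exact (mem_sdiff.mp (hUFS hxF)).2 (mem_sdiff.mp hx).1
        · rw [← coe_union]
          refine (hi2 l).subset (coe_subset.mpr ?_)
          exact union_subset_union_left (sdiff_subset_sdiff subset_rfl (hYU l))) (by
        intro l
        rw [(hFi l).contract_indep_iff]
        refine ⟨?_, ?_⟩
        · rw [disjoint_coe]
          exact sdiff_disjoint
        · rw [← coe_union]
          refine (hS l).subset (coe_subset.mpr ?_)
          exact union_subset sdiff_subset (hUFS.trans sdiff_subset)) hcase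
    have hX0S : ∀ x ∈ B'' \ (B \ UY), x ∈ X := by
      intro x hx
      obtain ⟨h1, h2⟩ := mem_sdiff.mp hx
      rcases mem_union.mp (hB'' h1) with h3 | h3
      · exact absurd h3 h2
      · exact h3
    have hXS : ∀ x ∈ X, x ∈ S ∧ x ∉ UF ∧ x ∉ B := by
      intro x hx
      obtain ⟨h1, h2⟩ := mem_sdiff.mp (hX hx)
      obtain ⟨h3, h4⟩ := mem_sdiff.mp h1
      refine ⟨h3, h4, fun hxB => h2 (mem_sdiff.mpr ⟨hxB, fun hxY => ?_⟩)⟩
      exact (mem_sdiff.mp (hUYB hxY)).2 h3
    have hX0c : (B'' \ (B \ UY)).card ≤ s := (card_le_card hX0S).trans hXc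
    obtain ⟨X2, hX2, hX2c, B', hB', hi', hlt'⟩ :=
      Pool.Agent.Helper69.LS2.lift M (B := B) (X := B'' \ (B \ UY)) (W := (B \ UY) \ B'')
        (F := UF) (Y := UY) F Y hUF hUY hFd hYd (fun l => (hYB l).trans sdiff_subset) hc
        (by
          intro l
          rw [disjoint_left]
          intro x hx
          exact (mem_sdiff.mp (hFS l hx)).2)
        (by
          rw [disjoint_left]
          intro x hx
          exact (hXS x (hX0S x hx)).2.2)
        (by
          intro l
          rw [disjoint_left]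
          intro x hx hxF
          exact (hXS x (hX0S x hx)).2.1 (hUF ▸ mem_biUnion.mpr ⟨l, mem_univ _, hxF⟩))
        hi1 hi2 sdiff_subset
        (by
          intro l
          have h5 := (((hFi l).contract_indep_iff).mp (hi'' l)).2
          rw [← coe_union] at h5
          refine h5.subset (coe_subset.mpr ?_)
          intro x hx
          simp only [mem_union, mem_sdiff] at hx ⊢
          tauto)
        (by
          have e1 := card_sdiff_add_card_inter B'' (B \ UY)
          have e2 := card_sdiff_add_card_inter (B \ UY) B''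
          rw [inter_comm] at e2
          omega)
    refine hcon ⟨X2, ?_, hX2c.trans (Nat.mul_le_mul_left _ hX0c), B', hB', hi', hlt'⟩
    intro x hx
    rcases mem_union.mp (hX2 hx) with h6 | h6
    · have h7 := hXS x (hX0S x h6)
      exact mem_sdiff.mpr ⟨h7.1, h7.2.2⟩
    · exact hUFS h6
  · have hcase := not_lt.mp hcase
    have e1 : ((B \ UY).card : ℝ) = B.card - UF.card := by
      have : ((B \ UY).card : ℝ) + UF.card = B.card := by exact_mod_cast hB1c
      linarith
    have e2 : ((S \ UF).card : ℝ) = S.card - UF.card := by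
      have : ((S \ UF).card : ℝ) + UF.card = S.card := by exact_mod_cast hS1c
      linarith
    rw [e1, e2] at hcase
    have e3 : (2 : ℝ) * S.card ≤ k * B.card + UF.card := by exact_mod_cast hcount
    have hden : (0 : ℝ) < 2 * b - 1 := by linarith
    rw [div_mul_eq_mul_div, div_lt_iff₀ hden] at hlt
    have e4 : (b - 1) * (2 * (S.card : ℝ)) ≤ (b - 1) * (k * B.card + UF.card) :=
      mul_le_mul_of_nonneg_left e3 (by linarith)
    nlinarith

theorem LSP_betaSeq {k : ℕ} (hk : 2 ≤ k) (j : ℕ) : ∃ s : ℕ, 1 ≤ s ∧ LSP k (betaSeq k j) s := by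
  induction j with
  | zero => exact ⟨2, by norm_num, by rw [betaSeq_zero]; exact base hk⟩
  | succ j ih =>
    obtain ⟨s, hs, h⟩ := ih
    refine ⟨(2 * k + 1) * s, by nlinarith, ?_⟩
    rw [betaSeq_succ]
    exact step hk (betaSeq_ge_one hk j) hs h

theorem local_search {k : ℕ} (hk : 2 ≤ k) {d : ℝ} (hd : 0 < d) :
    ∃ s : ℕ, 1 ≤ s ∧ LSP k ((k : ℝ) / 2 + d) s := by
  obtain ⟨j, hj⟩ := beta_exists hk hd
  obtain ⟨s, hs, h⟩ := LSP_betaSeq hk j
  exact ⟨s, hs, h.mono hj⟩

end Pool.Agent.Helper12.LS
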