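import Mathlib

/-! MP_3fccc5_lc, local search by exchanges of bounded size: the recursion for the ratio. -/

namespace Pool.Agent.Helper12.LS

/-- The ratio after j rounds: starts with k and tends to k/2. -/
noncomputable def betaSeq (k : ℕ) : ℕ → ℝ
  | 0 => k
  | j + 1 => (betaSeq k j + k * (betaSeq k j - 1)) / (2 * betaSeq k j - 1)

theorem betaSeq_zero (k : ℕ) : betaSeq k 0 = k := rfl

theorem betaSeq_succ (k j : ℕ) :
    betaSeq k (j + 1) = (betaSeq k j + k * (betaSeq k j - 1)) / (2 * betaSeq k j - 1) := rfl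

theorem betaSeq_ge {k : ℕ} (hk : 2 ≤ k) (j : ℕ) : (k : ℝ) / 2 ≤ betaSeq k j := by
  have hk' : (2 : ℝ) ≤ k := by exact_mod_cast hk
  induction j with
  | zero => rw [betaSeq_zero]; linarith
  | succ j ih =>
    have hden : (0 : ℝ) < 2 * betaSeq k j - 1 := by linarith
    rw [betaSeq_succ, le_div_iff₀ hden]
    nlinarith

theorem betaSeq_ge_one {k : ℕ} (hk : 2 ≤ k) (j : ℕ) : (1 : ℝ) ≤ betaSeq k j := by
  have hk' : (2 : ℝ) ≤ k := by exact_mod_cast hk
  have := betaSeq_ge hk j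
  linarith

theorem betaSeq_sub {k : ℕ} (hk : 2 ≤ k) (j : ℕ) :
    betaSeq k (j + 1) - (k : ℝ) / 2 = (betaSeq k j - (k : ℝ) / 2) / (2 * betaSeq k j - 1) := by
  have h1 := betaSeq_ge_one hk j
  have hden : (2 * betaSeq k j - 1) ≠ 0 := by
    have : (0 : ℝ) < 2 * betaSeq k j - 1 := by linarith
    exact this.ne'
  rw [betaSeq_succ, eq_div_iff hden, sub_mul, div_mul_cancel₀ _ hden]
  ring

theorem betaSeq_bound {k : ℕ} (hk : 2 ≤ k) (j : ℕ) :
    (betaSeq k j - (k : ℝ) / 2) * (1 + 2 * j / k) ≤ (k : ℝ) / 2 := by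
  have hk' : (2 : ℝ) ≤ k := by exact_mod_cast hk
  have hk0 : (0 : ℝ) < k := by linarith
  induction j with
  | zero =>
    rw [betaSeq_zero]
    simp
  | succ j ih =>
    have hge := betaSeq_ge hk j
    set x := betaSeq k j - (k : ℝ) / 2 with hx
    have hx0 : 0 ≤ x := by rw [hx]; linarith
    have hb : betaSeq k j = x + k / 2 := by rw [hx]; ring
    rw [betaSeq_sub hk, ← hx, hb]
    have hden : (0 : ℝ) < 2 * (x + (k : ℝ) / 2) - 1 := by linarith
    rw [div_mul_eq_mul_div, div_le_iff₀ hden]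
    push_cast
    have hj : (0 : ℝ) ≤ j := Nat.cast_nonneg j
    have e1 : x * (1 + 2 * ((j : ℝ) + 1) / k) = x * (1 + 2 * j / k) + 2 * x / k := by
      field_simp
      ring
    rw [e1]
    have e2 : 2 * x / k ≤ x := by
      rw [div_le_iff₀ hk0]
      nlinarith
    have e3 : 0 ≤ x * (1 + 2 * (j : ℝ) / k) := by positivity
    nlinarith [mul_nonneg hx0 hk0.le]

theorem beta_exists {k : ℕ} (hk : 2 ≤ k) {d : ℝ} (hd : 0 < d) :
    ∃ j, betaSeq k j ≤ (k : ℝ) / 2 + d := by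
  have hk' : (2 : ℝ) ≤ k := by exact_mod_cast hk
  have hk0 : (0 : ℝ) < k := by linarith
  obtain ⟨j, hj⟩ := exists_nat_gt ((k : ℝ) ^ 2 / (4 * d))
  refine ⟨j, ?_⟩
  by_contra hcon
  have hcon := not_le.mp hcon
  have hb := betaSeq_bound hk j
  have hj0 : (0 : ℝ) ≤ j := Nat.cast_nonneg j
  have h1 : d * (1 + 2 * (j : ℝ) / k) ≤ (betaSeq k j - (k : ℝ) / 2) * (1 + 2 * j / k) := by
    apply mul_le_mul_of_nonneg_right _ (by positivity)
    linarith
  have h2 : (k : ℝ) ^ 2 < j * (4 * d) := by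
    rwa [div_lt_iff₀ (by positivity)] at hj
  have h3 : d * (2 * (j : ℝ) / k) ≤ (k : ℝ) / 2 := by
    have : d * (1 + 2 * (j : ℝ) / k) = d + d * (2 * (j : ℝ) / k) := by ring
    linarith
  have h4 : d * (2 * (j : ℝ)) ≤ (k : ℝ) / 2 * k := by
    have : d * (2 * (j : ℝ) / k) = d * (2 * (j : ℝ)) / k := by ring
    rw [this, div_le_iff₀ hk0] at h3
    exact h3
  nlinarith

end Pool.Agent.Helper12.LS
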